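import Pool.Agent.Helper93.TCU.Stmts
import Pool.Agent.Helper93.TCU.Bas
import Pool.Agent.Helper3.TCS.Ret

/-!
# T10/TCU, IND: independence for options which are not bad
-/

set_option autoImplicit false
set_option linter.unusedSectionVars false

namespace Pool.TCU

open Pool.TC Pool.TCM Pool.TCS Finset
open scoped Classical

section

variable {V κ : Type} [Fintype V] [Fintype κ] {S : CS V κ} {U : Finset V} {L : V → Finset κ}
  {D l m K : ℕ} {x : ℝ} {q : V → κ → ℝ} {Lam : ℝ} {o : V → κ}

/-- the labels on which `retv u` depends -/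
private noncomputable def Ind_Q (S : CS V κ) (U : Finset V) (o : V → κ) (u : V) :
    Finset (Lab V κ) :=
  univ.filter (fun t => t = Sum.inl (Sum.inl u) ∨ t = Sum.inl (Sum.inr u) ∨
    ∃ w ∈ U, conf S o u w ∧ t = Sum.inl (Sum.inl w))

private theorem Ind_ret_congr {u : V} {ω ω' : Lab V κ → Fin (m ^ (2 * K + 1))}
    (h1 : ω (Sum.inl (Sum.inl u)) = ω' (Sum.inl (Sum.inl u)))
    (h2 : ω (Sum.inl (Sum.inr u)) = ω' (Sum.inl (Sum.inr u)))
    (h3 : ∀ w ∈ U, conf S o u w → ω (Sum.inl (Sum.inl w)) = ω' (Sum.inl (Sum.inl w))) :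
    retv S U o m K ω u ↔ retv S U o m K ω' u := by
  unfold retv actv goodv
  rw [h1, h2]
  refine and_congr Iff.rfl (and_congr Iff.rfl (and_congr Iff.rfl ?_))
  constructor
  · intro h w hw hc
    rw [← h3 w hw hc]
    exact h w hw hc
  · intro h w hw hc
    rw [h3 w hw hc]
    exact h w hw hc

private theorem Ind_one_sub {Ω : Type} [Fintype Ω] [Nonempty Ω] (F : Ω → ℝ) :
    mean (fun ω => 1 - F ω) = 1 - mean F := by
  unfold mean
  rw [sum_sub_distrib, sum_const, nsmul_eq_mul, mul_one, card_univ, sub_div, div_self]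
  exact_mod_cast Fintype.card_ne_zero

private theorem Ind_main (hBox : St_Box) (hN : 0 < m ^ (2 * K + 1)) {u : V}
    (hm : mean (fun ω => if retv S U o m K ω u then (1 : ℝ) else 0) = bet m K) (A : Finset V)
    (hA : ∀ w ∈ A, w ≠ u ∧ ¬ conf S o u w ∧ ∀ v ∈ U, conf S o u v → ¬ conf S o v w)
    (E : (Lab V κ → Fin (m ^ (2 * K + 1))) → Prop)
    (hE : ∀ ω, E ω ↔ ∀ w ∈ A, ¬ retv S U o m K ω w) :
    mean (fun ω => if ¬ retv S U o m K ω u ∧ E ω then (1 : ℝ) else 0) =
      (1 - bet m K) * mean (fun ω => if E ω then (1 : ℝ) else 0) := by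
  have : Nonempty (Fin (m ^ (2 * K + 1))) := ⟨⟨0, hN⟩⟩
  have h1 := (hBox (Lab V κ) (Fin (m ^ (2 * K + 1)))).2 (Ind_Q S U o u)
    (fun ω => 1 - if retv S U o m K ω u then (1 : ℝ) else 0) (fun ω => if E ω then (1 : ℝ) else 0)
    (by
      intro ω ω' h
      have e : retv S U o m K ω u ↔ retv S U o m K ω' u := by
        apply Ind_ret_congr
        · exact h _ (by unfold Ind_Q; simp)
        · exact h _ (by unfold Ind_Q; simp)
        · intro w hw hc
          exact h _ (by
            unfold Ind_Q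
            rw [mem_filter]
            exact ⟨mem_univ _, Or.inr (Or.inr ⟨w, hw, hc, rfl⟩)⟩)
      show (1 - if retv S U o m K ω u then (1 : ℝ) else 0) =
        (1 - if retv S U o m K ω' u then (1 : ℝ) else 0)
      by_cases hr : retv S U o m K ω u
      · rw [if_pos hr, if_pos (e.1 hr)]
      · rw [if_neg hr, if_neg (fun h' => hr (e.2 h'))])
    (by
      intro ω ω' h
      have e : ∀ w ∈ A, (retv S U o m K ω w ↔ retv S U o m K ω' w) := by
        intro w hw
        obtain ⟨a1, a2, a3⟩ := hA w hw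
        apply Ind_ret_congr
        · apply h
          unfold Ind_Q
          rw [mem_filter]
          rintro ⟨-, h2 | h2 | ⟨v, -, hc, h2⟩⟩
          · exact a1 (Sum.inl_injective (Sum.inl_injective h2))
          · simp at h2
          · exact a2 ((Sum.inl_injective (Sum.inl_injective h2)) ▸ hc)
        · apply h
          unfold Ind_Q
          rw [mem_filter]
          rintro ⟨-, h2 | h2 | ⟨v, -, hc, h2⟩⟩
          · simp at h2
          · exact a1 (Sum.inr_injective (Sum.inl_injective h2))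
          · simp at h2
        · intro v hv hc
          apply h
          unfold Ind_Q
          rw [mem_filter]
          rintro ⟨-, h2 | h2 | ⟨v', -, hc', h2⟩⟩
          · have h3 : v = u := Sum.inl_injective (Sum.inl_injective h2)
            exact a2 (h3 ▸ Ret_conf_symm hc)
          · simp at h2
          · have h3 : v = v' := Sum.inl_injective (Sum.inl_injective h2)
            rw [← h3] at hc'
            exact a3 v hv hc' (Ret_conf_symm hc)
      have e2 : E ω ↔ E ω' := by
        rw [hE, hE]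
        constructor
        · intro h2 w hw h3
          exact h2 w hw ((e w hw).2 h3)
        · intro h2 w hw h3
          exact h2 w hw ((e w hw).1 h3)
      show (if E ω then (1 : ℝ) else 0) = (if E ω' then (1 : ℝ) else 0)
      exact if_congr e2 rfl rfl)
  have h2 : mean (fun ω : Lab V κ → Fin (m ^ (2 * K + 1)) =>
      1 - if retv S U o m K ω u then (1 : ℝ) else 0) = 1 - bet m K := by
    rw [Ind_one_sub, hm]
  rw [← h2]
  refine Eq.trans (Ret_mean_congr fun ω => ?_) (h1.trans ?_)
  · by_cases hr : retv S U o m K ω u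
    · simp [hr]
    · by_cases hr2 : E ω
      · simp [hr, hr2]
      · simp [hr2]
  · congr 1
    · exact Ret_mean_congr fun _ => rfl
    · exact Ret_mean_congr fun _ => rfl

private theorem Ind_R (hN : 0 < m ^ (2 * K + 1)) (A : Finset V) (hA : A ⊆ U)
    (hm : ∀ w ∈ A, mean (fun ω => if retv S U o m K ω w then (1 : ℝ) else 0) = bet m K)
    (hc : ∀ w ∈ A, ∀ w' ∈ A, w ≠ w' → conf S o w w')
    (E : (Lab V κ → Fin (m ^ (2 * K + 1))) → Prop)
    (hE : ∀ ω, E ω ↔ ∀ w ∈ A, ¬ retv S U o m K ω w) :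
    mean (fun ω => if E ω then (1 : ℝ) else 0) = 1 - bet m K * A.card := by
  have : Nonempty (Fin (m ^ (2 * K + 1))) := ⟨⟨0, hN⟩⟩
  have h1 : ∀ ω, (if E ω then (1 : ℝ) else 0) =
      1 - ∑ w ∈ A, if retv S U o m K ω w then (1 : ℝ) else 0 := by
    intro ω
    by_cases hω : E ω
    · rw [if_pos hω, sum_eq_zero, sub_zero]
      intro w hw
      exact if_neg ((hE ω).1 hω w hw)
    · rw [if_neg hω]
      have hω' : ∃ w ∈ A, retv S U o m K ω w := by
        by_contra hcon
        exact hω ((hE ω).2 fun w hw h => hcon ⟨w, hw, h⟩)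
      obtain ⟨w, hw, hr⟩ := hω'
      rw [sum_eq_single w, if_pos hr, sub_self]
      · intro w' hw' hne
        refine if_neg fun hr' => ?_
        exact hr.2.2.2 w' (hA hw') (hc w hw w' hw' hne.symm) hr'.2.1
      · intro h
        exact absurd hw h
  have h2 : mean (fun ω : Lab V κ → Fin (m ^ (2 * K + 1)) =>
      ∑ w ∈ A, if retv S U o m K ω w then (1 : ℝ) else 0) = bet m K * A.card := by
    have h3 : mean (fun ω : Lab V κ → Fin (m ^ (2 * K + 1)) =>
        ∑ w ∈ A, if retv S U o m K ω w then (1 : ℝ) else 0) =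
        ∑ w ∈ A, mean (fun ω => if retv S U o m K ω w then (1 : ℝ) else 0) := by
      unfold mean
      rw [sum_comm, sum_div]
    rw [h3, sum_congr rfl hm, sum_const, nsmul_eq_mul, mul_comm]
  rw [← h2, ← Ind_one_sub]
  exact Ret_mean_congr h1

end

theorem thm_Ind (hBox : St_Box) (hRet : St_Ret) : St_Ind := by
  intro V κ _ _ S U L D l m K x q Lam o h ho u hu a ha hbad
  have hN : 0 < m ^ (2 * K + 1) := Nat.pow_pos (by have := h.m192; omega)
  have hret := (hRet V κ S U L D l m K x q Lam o h ho).1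
  have hcb : ∀ w, w ∈ U → (w ∈ KP S U o u a ∨ w ∈ KR S U o u (S.r u a)) →
      ¬ conf S o u w ∧ ∀ v ∈ U, conf S o u v → ¬ conf S o v w := by
    intro w hw hw2
    have h1 : w ∉ cb S U o u := fun h1 => hbad ⟨w, h1, hw2⟩
    unfold cb at h1
    rw [mem_filter] at h1
    constructor
    · intro h2
      exact h1 ⟨mem_univ _, hw, Or.inl h2⟩
    · intro v hv h2 h3
      exact h1 ⟨mem_univ _, hw, Or.inr ⟨v, hv, h2, h3⟩⟩
  constructor
  · unfold A2 A0
    refine Ind_main hBox hN (hret u hu) (KP S U o u a) ?_ (fun ω => nP S U o m K ω u a)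
      (fun ω => Iff.rfl)
    intro w hw
    have hw1 := hw
    unfold KP at hw1
    obtain ⟨-, hwU, hadj, -⟩ := mem_filter.1 hw1
    obtain ⟨b1, b2⟩ := hcb w hwU (Or.inl hw)
    exact ⟨fun h2 => S.irr u (h2 ▸ hadj), b1, b2⟩
  · unfold A3
    have hKR : ∀ w ∈ KR S U o u (S.r u a), w ∈ U ∧ w ≠ u ∧ S.r w (o w) = S.r u a := by
      intro w hw
      unfold KR at hw
      exact (mem_filter.1 hw).2
    have h1 := Ind_main hBox hN (hret u hu) (KR S U o u (S.r u a)) (by
      intro w hw
      obtain ⟨hwU, hne, -⟩ := hKR w hw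
      obtain ⟨b1, b2⟩ := hcb w hwU (Or.inr hw)
      exact ⟨hne, b1, b2⟩) (fun ω => nR S U o m K ω u a) (fun ω => Iff.rfl)
    have h2 := Ind_R (S := S) (o := o) hN (KR S U o u (S.r u a)) (fun w hw => (hKR w hw).1)
      (fun w hw => hret w (hKR w hw).1) (by
        intro w hw w' hw' hne
        refine ⟨hne, Or.inr ?_⟩
        rw [(hKR w hw).2.2, (hKR w' hw').2.2]) (fun ω => nR S U o m K ω u a) (fun ω => Iff.rfl)
    rw [h1, h2]

end Pool.TCU
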